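import Mathlib
import Pool.Agent.P.MP_92320c_lc.Defs
import Pool.Agent.P.MP_92320c_lc.Main

namespace Pool.Agent.Results.MP_92320c_lc.NoFamily

open Pool.Agent.P.MP_92320c_lc

universe u

/-- In every model of ZF, for every family `F = ⟨A_n⟩` of amorphous sets indexed by `ω` there is
`n ∈ ω` such that `𝒫(A_n)^n` is dually Dedekind infinite or `𝒫(A_n)^(n+1)` is dually Dedekind
finite. -/
theorem result : ∀ (M : Type u) (E : M → M → Prop), IsZF E →
    ∀ w F T : M, IsOmega E w → IsFun E F w T → (∀ n A, Rel E F n A → Amorphous E A) →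
      ∃ n s A Y Z : M, E n w ∧ IsSucc E n s ∧ Rel E F n A ∧ IsPowPow E A n Y ∧ IsPowPow E A s Z ∧
        (¬ DuallyFinite E Y ∨ DuallyFinite E Z) :=
  fun _ _ hE w F T => main hE w F T

end Pool.Agent.Results.MP_92320c_lc.NoFamily
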